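import Pool.Agent.Y877.SxI
import Pool.Agent.Y877.SxK

/-!
# Representations `n = k + m` with conditions on `p_k` and `p_{p_m}` shifted by multiples of a small primorial
-/

set_option autoImplicit false

open Finset

namespace Pool.Agent.Results.MP_04e9b2_nt.ChenIndexShifts

/-- the `k`-th prime, `p 1 = 2` -/
noncomputable def p (k : ℕ) : ℕ := Nat.nth Nat.Prime (k - 1)

/-- `m ≥ 1` is a product of at most two primes -/
def P2 (m : ℕ) : Prop := 0 < m ∧ m.primeFactorsList.length ≤ 2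

/-- the product of `1 - 1/q` over the primes `q ≤ y` -/
noncomputable def V (y : ℕ) : ℝ := ∏ q ∈ (Icc 1 y).filter Nat.Prime, (1 - 1 / (q : ℝ))

open Classical in
/-- the `k`, `0 < k < n`, such that `p_k + 2` is a product of at most two primes -/
noncomputable def Chen (n : ℕ) : Finset ℕ := (Ioo 0 n).filter (fun k => P2 (p k + 2))

/-- the `k ∈ K` such that `p_{p_m} + h` is prime, where `m = n - k` -/
noncomputable def Good (n : ℕ) (K : Finset ℕ) (h : ℕ) : Finset ℕ := K.filter (fun k => (p (p (n - k)) + h).Prime)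

theorem nth_inj : Function.Injective (Nat.nth Nat.Prime) := Nat.nth_injective Nat.infinite_setOfPred_prime

theorem pp_inj (n : ℕ) : Set.InjOn (fun k => p (p (n - k))) (Ioo 0 n : Finset ℕ) := by
  intro a ha b hb hab
  rw [mem_coe, mem_Ioo] at ha hb
  have h1 := nth_inj hab
  have h2 : 2 ≤ p (n - a) := (Nat.prime_nth_prime _).two_le
  have h3 : 2 ≤ p (n - b) := (Nat.prime_nth_prime _).two_le
  have h4 : p (n - a) = p (n - b) := by omega
  have h5 := nth_inj h4
  omega

theorem chen_sub (n : ℕ) : ((Ioc 0 n).filter (fun q : ℕ => q.Prime ∧ (-2 : ℤ) - q ≠ 0 ∧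
    ((-2 : ℤ) - q).natAbs.primeFactorsList.length ≤ 2)).card ≤ (Chen n).card := by
  classical
  apply card_le_card_of_injOn (fun q => Nat.count Nat.Prime q + 1)
  · intro q hq
    rw [mem_coe, mem_filter, mem_Ioc] at hq
    obtain ⟨⟨_, h1⟩, h2, h3, h4⟩ := hq
    have h5 : Nat.nth Nat.Prime (Nat.count Nat.Prime q) = q := Nat.nth_count h2
    have h6 : Nat.count Nat.Prime q + 2 ≤ q := by
      have := Nat.add_two_le_nth_prime (Nat.count Nat.Prime q)
      rwa [h5] at this
    unfold Chen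
    rw [mem_coe, mem_filter, mem_Ioo]
    refine ⟨⟨Nat.succ_pos _, (by omega : Nat.count Nat.Prime q + 1 < n)⟩, ?_⟩
    have h7 : ((-2 : ℤ) - q).natAbs = q + 2 := by omega
    rw [h7] at h4
    show P2 (Nat.nth Nat.Prime (Nat.count Nat.Prime q + 1 - 1) + 2)
    rw [Nat.add_sub_cancel, h5]
    exact ⟨(by omega : 0 < q + 2), h4⟩
  · intro a ha b hb hab
    rw [mem_coe, mem_filter] at ha hb
    have h1 : Nat.count Nat.Prime a = Nat.count Nat.Prime b := by
      simp only at hab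
      omega
    rw [← Nat.nth_count ha.2.1, ← Nat.nth_count hb.2.1, h1]

theorem chen_low : ∃ c : ℝ, 0 < c ∧ ∃ n₀ : ℕ, ∀ n : ℕ, n₀ ≤ n → c * n / Real.log n ^ 2 ≤ ((Chen n).card : ℝ) := by
  obtain ⟨c, hc, X0, hX⟩ := Pool.Agent.Y877.SX.chen_cnt
  refine ⟨c, hc, max X0 3, fun n hn => ?_⟩
  have b1 : X0 ≤ n := (le_max_left _ _).trans hn
  have b2 : 3 ≤ n := (le_max_right _ _).trans hn
  have h1 := hX n b1 (-2) (by norm_num) (by
    have : (3 : ℤ) ≤ n := by exact_mod_cast b2
    rw [abs_neg, abs_of_nonneg (by norm_num)]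
    omega) (by decide)
  refine h1.trans ?_
  exact_mod_cast chen_sub n

/-- There is an absolute constant `c > 0` such that for all `A`, `C` and `0 < ε ≤ 1` there is `K₀` such that for every `K₁` and
every large `n`, every `y` between `K₀ log log n` and `K₁ log log n`, with `M` the product of the primes `≤ y`, and every
window `(g₀, g₀ + G]` with `M (g₀ + G) ≤ n`, `G ≥ n / (M log ^ C n)`:
(1) for every set `K` of at least `n / log ^ A n` integers `0 < k < n`, for all but at most `ε G` of the `g ≤ G` the number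
`p_{p_m} + M (g₀ + g)`, `m = n - k`, is prime for at least `(1 - ε) #K / (V y log n)` elements `k` of `K`;
(2) `p_k + 2` is a product of at most two primes for at least `c n / log ^ 2 n` integers `0 < k < n`, and the conclusion of
(1) holds for the set of all these `k`. -/
theorem result : ∃ c : ℝ, 0 < c ∧ ∀ (A C : ℕ) (ε : ℝ), 0 < ε → ε ≤ 1 → ∃ K₀ : ℕ, ∀ K₁ : ℕ, ∃ n₀ : ℕ, ∀ n : ℕ, n₀ ≤ n →
    ∀ y : ℕ, K₀ * Real.log (Real.log n) ≤ y → y ≤ K₁ * Real.log (Real.log n) →
    ∀ g₀ G : ℕ, primorial y * (g₀ + G) ≤ n → (n : ℝ) ≤ primorial y * G * Real.log n ^ C →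
    (∀ K : Finset ℕ, K ⊆ Ioo 0 n → (n : ℝ) ≤ K.card * Real.log n ^ A →
      (((Icc 1 G).filter (fun g => ((Good n K (primorial y * (g₀ + g))).card : ℝ) <
        (1 - ε) * (K.card / (V y * Real.log n)))).card : ℝ) ≤ ε * G) ∧
    c * n / Real.log n ^ 2 ≤ ((Chen n).card : ℝ) ∧
    (((Icc 1 G).filter (fun g => ((Good n (Chen n) (primorial y * (g₀ + g))).card : ℝ) <
      (1 - ε) * ((Chen n).card / (V y * Real.log n)))).card : ℝ) ≤ ε * G := by
  obtain ⟨c, hc, n1, hn1⟩ := chen_low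
  refine ⟨c, hc, fun A C ε hε hε1 => ?_⟩
  obtain ⟨K₀, hK₀⟩ := Pool.Agent.Y877.SX.step 1 (Or.inl rfl) (max A 3) 5 C ε hε hε1
  refine ⟨K₀, fun K₁ => ?_⟩
  obtain ⟨n2, hn2⟩ := hK₀ K₁
  obtain ⟨n3, hn3⟩ := Pool.Agent.H373R2.T7.ev_L' (max 1 (1 / c))
  obtain ⟨n5, hn5⟩ := Pool.Agent.Y877.SX.nth_nth_le_log
  refine ⟨max (max n1 n2) (max n3 n5), fun n hn y hy1 hy2 g₀ G hg1 hg2 => ?_⟩
  have b1 : n1 ≤ n := le_trans (le_trans (le_max_left _ _) (le_max_left _ _)) hn
  have b2 : n2 ≤ n := le_trans (le_trans (le_max_right _ _) (le_max_left _ _)) hn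
  have b3 : n3 ≤ n := le_trans (le_trans (le_max_left _ _) (le_max_right _ _)) hn
  have b5 : n5 ≤ n := le_trans (le_trans (le_max_right _ _) (le_max_right _ _)) hn
  have hL := hn3 n b3
  have hL1 : 1 ≤ Real.log n := (le_max_left _ _).trans hL
  have hL2 : 1 / c ≤ Real.log n := (le_max_right _ _).trans hL
  have hlow := hn1 n b1
  have f2 : ∀ k ∈ Ioo 0 n, (p (p (n - k))).Prime ∧ (p (p (n - k)) : ℝ) ≤ n * Real.log n ^ 5 := by
    intro k hk
    rw [mem_Ioo] at hk
    exact ⟨Nat.prime_nth_prime _, hn5 n b5 (n - k - 1) (by omega)⟩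
  have main : ∀ K : Finset ℕ, K ⊆ Ioo 0 n → (n : ℝ) ≤ K.card * Real.log n ^ (max A 3) →
      (((Icc 1 G).filter (fun g => ((Good n K (primorial y * (g₀ + g))).card : ℝ) <
        (1 - ε) * (K.card / (V y * Real.log n)))).card : ℝ) ≤ ε * G := by
    intro K hK hKc
    have h1 := hn2 n b2 y hy1 hy2 K hKc (fun k => p (p (n - k))) ((pp_inj n).mono (by exact_mod_cast hK))
      (fun k hk => f2 k (hK hk)) g₀ G (by rw [pow_one]; exact hg1) (by rw [pow_one]; exact hg2)
    refine le_trans (le_of_eq ?_) h1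
    congr 2
    apply filter_congr
    intro g _
    simp only [pow_one, Nat.cast_one, one_mul]
    rfl
  refine ⟨fun K hK hKc => main K hK (hKc.trans ?_), hlow, main (Chen n) ?_ ?_⟩
  · apply mul_le_mul_of_nonneg_left _ (Nat.cast_nonneg _)
    exact pow_le_pow_right₀ hL1 (le_max_left _ _)
  · classical
    exact filter_subset _ _
  · have h3 : Real.log n ^ 3 ≤ Real.log n ^ (max A 3) := pow_le_pow_right₀ hL1 (le_max_right _ _)
    refine le_trans ?_ (mul_le_mul_of_nonneg_left h3 (Nat.cast_nonneg _))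
    have hL0 : 0 < Real.log n := by linarith
    rw [div_le_iff₀ (by positivity)] at hlow
    rw [div_le_iff₀ hc] at hL2
    have hn0 : (0 : ℝ) ≤ n := Nat.cast_nonneg n
    calc (n : ℝ) = n * 1 := by ring
      _ ≤ n * (Real.log n * c) := mul_le_mul_of_nonneg_left hL2 hn0
      _ = (c * n) * Real.log n := by ring
      _ ≤ ((Chen n).card * Real.log n ^ 2) * Real.log n := mul_le_mul_of_nonneg_right hlow hL0.le
      _ = _ := by ring

end Pool.Agent.Results.MP_04e9b2_nt.ChenIndexShifts
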